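import Pool.Agent.Helper42.PW.Goals3
import Pool.Agent.Helper56.RL.ADM

/-!
Packet W-W_SPF (MP_fc6b1e_nt).
-/

namespace Pool.Agent.Helper4.PW

open NumberField Polynomial Module IsDedekindDomain
open Pool.Agent.Helper51.RP
open Pool.Agent.Helper77.RL (SplitAt)
open Pool.Agent.Helper42.RD (wt wt_p)
open Pool.Agent.Helper49.RSV (mem_PI)
open Pool.Agent.Helper42.PW (SplF)
open Pool.Agent.Helper56.RL (wt_pres)

theorem w_spf : Pool.Agent.Helper42.PW.W_SPF := by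
  intro p hp K F M' H _ _ _ _ _ _ _ _ _ _ _ _ _ _ _ hgen σ hspl τ' hτ g hg
  apply hgen
  intro x
  let gK : H ≃ₐ[K] H := g.restrictScalars K
  let s : F →+* ℂ_[p] := τ'.comp (algebraMap F H)
  have hcomm : ∀ y : F, algebraMap F H (gK.restrictNormal F y) = g (algebraMap F H y) :=
    fun y => gK.restrictNormal_commutes F y
  have hs : ∀ y : F, ‖s (gK.restrictNormal F y)‖ = ‖s y‖ := by
    intro y
    show ‖τ' (algebraMap F H (gK.restrictNormal F y))‖ = ‖τ' (algebraMap F H y)‖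
    rw [hcomm, hg]
  have hV : ∀ z : 𝓞 K, algebraMap (𝓞 K) (𝓞 F) z ∈ (wt p s).asIdeal ↔ ‖σ (z : K)‖ < 1 := by
    intro z
    have e0 : algebraMap (𝓞 K) (𝓞 F) z ∈ (wt p s).asIdeal ↔
        ‖s ((algebraMap (𝓞 K) (𝓞 F) z : 𝓞 F) : F)‖ < 1 := mem_PI s _
    rw [e0]
    have e1 : s ((algebraMap (𝓞 K) (𝓞 F) z : 𝓞 F) : F) = σ (z : K) := by
      rw [← hτ]
      show τ' (algebraMap F H (algebraMap K F (z : K))) = τ' (algebraMap K H (z : K))
      rw [← IsScalarTower.algebraMap_apply K F H]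
    rw [e1]
  have h1 : gK.restrictNormal F = 1 :=
    hspl (wt p s) hV _ (fun y => wt_pres p s (gK.restrictNormal F) hs y)
  rw [← hcomm, h1]
  rfl

end Pool.Agent.Helper4.PW
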